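import Mathlib

set_option autoImplicit false

namespace Pool.Agent.Results.MP_625351_al.Main

open LaurentPolynomial Polynomial Filter

abbrev A : Type := LaurentPolynomial ℤ

abbrev M : Type := GL (Fin 2) A

/-- matrix entries -/
def ent (g : M) (i j : Fin 2) : A := g i j

/-- the underlying set of the wreath product -/
def Gs : Set M := {g | (∃ n : ℤ, ent g 0 0 = T n) ∧ ent g 1 0 = 0 ∧ ent g 1 1 = 1}

theorem Gs_one : (1 : M) ∈ Gs := ⟨⟨0, by simp [ent]⟩, by simp [ent], by simp [ent]⟩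

theorem Gs_mul {a b : M} : a ∈ Gs → b ∈ Gs → a * b ∈ Gs := by
  rintro ⟨⟨n, a1⟩, a2, a3⟩ ⟨⟨m, b1⟩, b2, b3⟩
  unfold ent at *
  exact ⟨⟨n + m, by simp [-T_mul, ent, T_add, Matrix.mul_apply, a1, b1, b2]⟩,
    by simp [ent, Matrix.mul_apply, a2, b2], by simp [ent, Matrix.mul_apply, a2, a3, b3]⟩

theorem Gs_inv {a : M} : a ∈ Gs → a⁻¹ ∈ Gs := by
  rintro ⟨⟨n, a1⟩, a2, a3⟩
  unfold ent at *
  have h : ∀ i j, (a * a⁻¹) i j = (1 : GL (Fin 2) A) i j := fun i j => by rw [mul_inv_cancel]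
  have h1 := h 1 0
  have h2 := h 1 1
  have h3 := h 0 0
  simp only [Units.val_mul, Matrix.mul_apply, Fin.sum_univ_two, a1, a2, a3, zero_mul, one_mul,
    zero_add, Units.val_one, Matrix.one_apply_eq] at h1 h2 h3
  rw [Matrix.one_apply_ne (by decide)] at h1
  rw [h1, mul_zero, add_zero] at h3
  refine ⟨⟨-n, ?_⟩, h1, h2⟩
  unfold ent
  rw [← one_mul (a⁻¹ 0 0), ← T_zero, ← neg_add_cancel n, T_add, mul_assoc, h3, mul_one]

/-- the wreath product as a matrix group -/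
def G : Subgroup M where
  carrier := Gs
  one_mem' := Gs_one
  mul_mem' := Gs_mul
  inv_mem' := Gs_inv

theorem g10 (g : G) : g.1 1 0 = 0 := g.2.2.1

theorem g11 (g : G) : g.1 1 1 = 1 := g.2.2.2

/-- the kernel of reduction along a ring homomorphism -/
noncomputable def K {R S : Type} [CommRing R] [CommRing S] (f : R →+* S) :
    Subgroup (GL (Fin 2) R) :=
  (Matrix.GeneralLinearGroup.map f).ker

/-- congruence subgroups -/
noncomputable def N (I : Ideal A) : Subgroup G := (K (Ideal.Quotient.mk I)).subgroupOf G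

/-- trivial intersection -/
def Triv {Γ : Type} [Group Γ] (N : ℕ → Subgroup Γ) : Prop := ⨅ k, N k = ⊥

/-- the sequence of congruence subgroups of a sequence of ideals -/
noncomputable def Box (I : ℕ → Ideal A) : ℕ → Subgroup G := fun k => N (I k)

/-- decreasing sequences of ideals with finite quotients -/
def Dec {R : Type} [CommRing R] (I : ℕ → Ideal R) : Prop :=
  Antitone I ∧ ∀ k, Finite (R ⧸ I k)

/-- sequences of ideals giving a congruence box space -/
def Cong (I : ℕ → Ideal A) : Prop := Dec I ∧ Triv (Box I)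

/-- property `D α` -/
def D {Γ : Type} [Group Γ] (S : Finset Γ) (N : ℕ → Subgroup Γ) (α : ℝ) : Prop :=
  ∃ K : ℝ, 0 < K ∧ ∀ k, ∃ g : Γ, ∀ l : List Γ, (∀ x ∈ l, x ∈ S ∨ x⁻¹ ∈ S) →
    l.prod⁻¹ * g ∈ N k → K * ((N k).index : ℝ) ^ α ≤ l.length

/-- generating sets -/
def Gen {Γ : Type} [Group Γ] (S : Finset Γ) : Prop := Subgroup.closure (S : Set Γ) = ⊤

/-- property `D α` for all finite generating sets -/
def AllD {Γ : Type} [Group Γ] (N : ℕ → Subgroup Γ) (α : ℝ) : Prop :=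
  ∀ S : Finset Γ, Gen S → D S N α

/-- failure of `D α` for all finite generating sets and all `α` in `(0, 1]` -/
def NoD {Γ : Type} [Group Γ] (N : ℕ → Subgroup Γ) : Prop :=
  ∀ S : Finset Γ, Gen S → ∀ α : ℝ, 0 < α → α ≤ 1 → ¬ D S N α

theorem N_eq (I : Ideal A) :
    N I = ((Matrix.GeneralLinearGroup.map (Ideal.Quotient.mk I)).comp G.subtype).ker := rfl

theorem mem_N (I : Ideal A) (g : G) : g ∈ N I ↔ g.1 0 0 - 1 ∈ I ∧ g.1 0 1 ∈ I := by
  simp [N_eq, MonoidHom.mem_ker, Units.ext_iff, ← Matrix.ext_iff, Fin.forall_fin_two, g10,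
    g11, Ideal.Quotient.eq_zero_iff_mem, ← Ideal.Quotient.eq]

theorem bot_of {I : ℕ → Ideal A} (h : ∀ P, (∀ k, P ∈ I k) → P = 0) : ⨅ k, N (I k) = ⊥ := by
  refine (Subgroup.eq_bot_iff_forall _).2 fun g hg => ?_
  simp only [Subgroup.mem_iInf, mem_N] at hg
  have a := sub_eq_zero.1 (h _ fun k => (hg k).1)
  have b := h _ fun k => (hg k).2
  ext i j
  fin_cases i <;> fin_cases j <;> simp [a, b, g10, g11]

theorem T1 (n : ℤ) : (T n * T (-n) : A) = 1 := by rw [← T_add, add_neg_cancel, T_zero]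

theorem T2 (n : ℤ) : (T (-n) * T n : A) = 1 := by rw [mul_comm, T1]

noncomputable def el (n : ℤ) (P : A) : G :=
  ⟨⟨!![T n, P; 0, 1], !![T (-n), -(T (-n) * P); 0, 1],
    by simp [-T_mul, ← mul_assoc, T1, Matrix.one_fin_two],
    by simp [-T_mul, T2, Matrix.one_fin_two]⟩, ⟨n, rfl⟩, rfl, rfl⟩

theorem el_mul (n m : ℤ) (P Q : A) : el n P * el m Q = el (n + m) (T n * Q + P) := by
  ext1; ext1
  simp [-T_mul, el, T_add]

theorem el_one : el 0 0 = 1 := by
  ext1; ext1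
  simp [el, Matrix.one_fin_two]

theorem el_inv (n : ℤ) (P : A) : (el n P)⁻¹ = el (-n) (-(T (-n) * P)) := by
  rw [inv_eq_iff_mul_eq_one, el_mul, ← el_one]
  simp [-T_mul, ← mul_assoc, T1]

theorem el_surj (g : G) : ∃ n P, g = el n P := by
  obtain ⟨n, hn⟩ := g.2.1
  unfold ent at hn
  refine ⟨n, g.1 0 1, ?_⟩
  ext i j
  fin_cases i <;> fin_cases j <;> simp [el, hn, g10, g11]

theorem el_mem (I : Ideal A) (n : ℤ) (P : A) : el n P ∈ N I ↔ T n - 1 ∈ I ∧ P ∈ I := mem_N I _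

theorem lift0 {P : A} (h : ∀ (p : ℤ[X]) (n : ℕ), toLaurent p = P * T n → p = 0) : P = 0 := by
  obtain ⟨n, p, hp⟩ := exists_T_pow P
  rw [h p n hp, map_zero, eq_comm] at hp
  exact (isUnit_T n).mul_left_eq_zero.1 hp

theorem q1 : ∃ I, Cong I ∧ ∀ S : Finset G, D S (fun k => N (I k)) (1 / 2) := by
  haveI : Fact (Nat.Prime 3) := ⟨by norm_num⟩
  obtain ⟨b, hb, hb1⟩ := (((Algebraic.countable ℤ ℚ_[3]).preimage_of_injOn
    (f := fun b : ℚ_[3] => 4 + 9 * b) fun a _ b _ h => by simpa using h).dense_compl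
      ℚ_[3]).exists_mem_open Metric.isOpen_ball ⟨0, Metric.mem_ball_self one_pos⟩
  obtain ⟨b, rfl⟩ : ∃ c : ℤ_[3], (c : ℚ_[3]) = b := ⟨⟨b, (mem_ball_zero_iff.1 hb1).le⟩, rfl⟩
  have ht : ∀ p : ℤ[X], p.eval₂ (Int.castRingHom _) (4 + 9 * b) = 0 → p = 0 := by
    intro p hp
    by_contra hc
    refine hb ⟨p, hc, ?_⟩
    have := congrArg (PadicInt.Coe.ringHom (p := 3)) hp
    rw [hom_eval₂, map_zero] at this
    rw [aeval_def, ← this]
    congr 1
  have ho : ∀ k, orderOf (PadicInt.toZModPow (k + 1) (4 + 9 * b)) = 3 ^ k := by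
    intro k
    obtain ⟨t, ht⟩ := ZMod.intCast_surjective (PadicInt.toZModPow (k + 1) b)
    rw [← ZMod.orderOf_one_add_mul_prime (p := 3) (by norm_num) (by norm_num) (1 + 3 * t)
      (by omega) k, map_add, map_mul, ← ht, map_ofNat, map_ofNat]
    congr 1
    push_cast
    ring
  have hu : IsUnit (4 + 9 * b) := by
    by_contra hc
    have h3 : ‖(3 : ℤ_[3])‖ < 1 := by exact_mod_cast PadicInt.norm_int_lt_one_iff_dvd 3 |>.2 dvd_rfl
    have h1 := PadicInt.not_isUnit_iff.1 hc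
    have h2 : ‖(3 : ℤ_[3]) * (-1 - 3 * b)‖ < 1 := by
      rw [norm_mul]
      exact mul_lt_one_of_nonneg_of_lt_one_left (norm_nonneg _) h3 (PadicInt.norm_le_one _)
    have := (PadicInt.nonarchimedean _ _).trans_lt (max_lt h1 h2)
    rw [show 4 + 9 * b + 3 * (-1 - 3 * b) = 1 by ring, norm_one] at this
    exact lt_irrefl _ this
  let φ : ∀ k, A →+* ZMod (3 ^ k) := fun k =>
    (PadicInt.toZModPow k).comp (LaurentPolynomial.eval₂ (Int.castRingHom _) hu.unit)
  have fin : ∀ k, Nat.card (A ⧸ RingHom.ker (φ k)) ≤ 3 ^ k ∧ Finite (A ⧸ RingHom.ker (φ k)) :=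
    fun k => ⟨(Nat.card_le_card_of_injective _ (RingHom.kerLift_injective (φ k))).trans
      (Nat.card_zmod _).le, Finite.of_injective _ (RingHom.kerLift_injective (φ k))⟩
  refine ⟨fun k => RingHom.ker (φ (k + 2)), ⟨⟨fun i j h P hP => ?_, fun k => (fin _).2⟩,
    bot_of fun P hP => lift0 fun p n hp => ht p ?_⟩, fun S => ?_⟩
  · rw [RingHom.mem_ker] at hP ⊢
    have := congrArg (ZMod.castHom (pow_dvd_pow 3 (Nat.add_le_add_right h 2)) (ZMod (3 ^ (i + 2)))) hP
    rwa [map_zero, RingHom.comp_apply, ← RingHom.comp_apply, PadicInt.zmod_cast_comp_toZModPow]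
      at this
    omega
  · rw [← hu.unit_spec, ← eval₂_toLaurent, hp, map_mul]
    refine mul_eq_zero_of_left (PadicInt.ext_of_toZModPow.1 fun k => ?_) _
    have := congrArg (ZMod.castHom (pow_dvd_pow 3 (Nat.le_add_right k 2)) (ZMod (3 ^ k))) (hP k)
    rwa [map_zero, RingHom.comp_apply, ← RingHom.comp_apply, PadicInt.zmod_cast_comp_toZModPow,
      ← map_zero (PadicInt.toZModPow k)] at this
    omega
  choose e Q he using el_surj
  obtain ⟨M, hM⟩ : ∃ M : ℕ, ∀ x ∈ S, |e x| ≤ M + 1 := ⟨S.sup fun x => (e x).natAbs, fun x hx => by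
    have := Finset.le_sup (f := fun x => (e x).natAbs) hx
    rw [Int.abs_eq_natAbs]
    exact_mod_cast this.trans (Nat.le_succ _)⟩
  have hw : ∀ l : List G, (∀ x ∈ l, x ∈ S ∨ x⁻¹ ∈ S) →
      ∃ (n : ℤ) (P : A), |n| ≤ (M + 1) * l.length ∧ l.prod = el n P := by
    intro l
    induction l with
    | nil => exact fun _ => ⟨0, 0, by simp, el_one.symm⟩
    | cons x l ih =>
      intro h
      obtain ⟨n, P, a, b⟩ := ih fun y hy => h y (List.mem_cons_of_mem _ hy)
      obtain ⟨m, R, c, d⟩ : ∃ (m : ℤ) (R : A), |m| ≤ M + 1 ∧ x = el m R := by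
        rcases h x List.mem_cons_self with h | h
        · exact ⟨_, _, hM x h, he x⟩
        · exact ⟨_, _, (abs_neg _).trans_le (hM _ h), by rw [← el_inv, ← he, inv_inv]⟩
      refine ⟨_, _, (abs_add_le m n).trans ?_, by rw [List.prod_cons, b, d, el_mul]⟩
      rw [List.length_cons]
      push_cast
      linarith
  refine ⟨1 / (9 * (M + 1)), by positivity, fun k => ⟨el (3 ^ k) 0, fun l hl h => ?_⟩⟩
  obtain ⟨n, P, a, c⟩ := hw l hl
  rw [c, el_inv, el_mul, el_mem, RingHom.mem_ker, map_sub, map_one, sub_eq_zero] at h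
  have h1 : ((3 : ℤ) ^ (k + 1)) ∣ -n + 3 ^ k := by
    have := h.1
    simp only [φ, RingHom.comp_apply, eval₂_T] at this
    have e : Units.map (PadicInt.toZModPow (k + 2)).toMonoidHom hu.unit ^ (-n + 3 ^ k) = 1 := by
      rw [← map_zpow]; exact Units.ext this
    rw [← orderOf_dvd_iff_zpow_eq_one, ← orderOf_units] at e
    exact_mod_cast (ho (k + 1) ▸ e :)
  have h2 : (3 : ℤ) ^ k ≤ |n| := by
    obtain ⟨t, ht⟩ := h1
    have : n = 3 ^ k * (1 - 3 * t) := by linear_combination -ht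
    rw [this, abs_mul, abs_of_pos (by positivity)]
    exact le_mul_of_one_le_right (by positivity) (Int.one_le_abs (by omega))
  have h3 : (N (RingHom.ker (φ (k + 2)))).index ≤ (3 ^ (k + 2)) ^ 2 := by
    haveI := (fin (k + 2)).2
    rw [N_eq, Subgroup.index_ker]
    refine (Nat.card_le_card_of_injective (fun g => (g.1 0 0, g.1 0 1)) ?_).trans ?_
    · rintro ⟨_, x, rfl⟩ ⟨_, y, rfl⟩ h
      simp only [Prod.mk.injEq] at h
      ext i j
      fin_cases i <;> fin_cases j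
      · exact h.1
      · exact h.2
      · simp [g10]
      · simp [g11]
    · rw [Nat.card_prod, sq]
      exact Nat.mul_le_mul (fin _).1 (fin _).1
  have h4 : ((N (RingHom.ker (φ (k + 2)))).index : ℝ) ^ (1 / 2 : ℝ) ≤ 3 ^ (k + 2) := by
    rw [← Real.sqrt_eq_rpow, Real.sqrt_le_left (by positivity)]
    exact_mod_cast h3
  have h5 : (3 : ℝ) ^ k ≤ (M + 1) * l.length := by exact_mod_cast h2.trans a
  rw [one_div, inv_mul_le_iff₀ (by positivity)]
  rw [pow_add (3 : ℝ)] at h4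
  linarith

noncomputable def J (k : ℕ) : Ideal A := Ideal.span {2 ^ k, T (2 ^ k) - 1}

theorem J_ev {R : Type} [CommRing R] (x : Rˣ) (k : ℕ) (h : (2 : R) ^ k = 0) (h' : x ^ 2 ^ k = 1)
    {P : A} (hP : P ∈ J k) : LaurentPolynomial.eval₂ (Int.castRingHom R) x P = 0 := by
  refine (Ideal.span_le.2 ?_ : J k ≤ RingHom.ker _) hP
  rintro _ (rfl | rfl)
  · simpa [map_ofNat] using h
  · have : x ^ ((2 : ℤ) ^ k) = 1 := by exact_mod_cast h'
    simp [eval₂_T, this]

theorem J_T (k : ℕ) (n : ℤ) : ∃ i < 2 ^ k, T (n - (i : ℕ)) - 1 ∈ J k := by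
  have h0 : (0 : ℤ) < 2 ^ k := by positivity
  refine ⟨(n % 2 ^ k).toNat, ?_, ?_⟩
  · have := Int.emod_lt_of_pos n h0
    zify
    rwa [Int.toNat_of_nonneg (Int.emod_nonneg _ h0.ne')]
  rw [Int.toNat_of_nonneg (Int.emod_nonneg _ h0.ne'), Int.emod_def, sub_sub_cancel]
  have h1 : (T (2 ^ k) - 1 : A) ∈ J k := Ideal.subset_span (Or.inr rfl)
  have h2 : ∀ m : ℕ, (T (2 ^ k * m) - 1 : A) ∈ J k := fun m => by
    have := sub_dvd_pow_sub_pow (T (2 ^ k) : A) 1 m
    rw [T_pow, one_pow, mul_comm] at this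
    exact (J k).mem_of_dvd this h1
  obtain ⟨m, e | e⟩ := Int.eq_nat_or_neg (n / 2 ^ k) <;> rw [e]
  · exact h2 m
  · have := (J k).mul_mem_left (-T (-(2 ^ k * m))) (h2 m)
    rwa [neg_mul, mul_sub, T2, mul_one, neg_sub, ← mul_neg] at this

theorem J_T' (k : ℕ) (n : ℤ) : ∃ i < 2 ^ k, T n - T (i : ℕ) ∈ J k := by
  obtain ⟨i, a, b⟩ := J_T k n
  have := (J k).mul_mem_right (T i) b
  rw [sub_mul, one_mul, ← T_add, sub_add_cancel] at this
  exact ⟨i, a, this⟩

theorem J_red (k : ℕ) (P : A) : ∃ c : ℕ → ℕ, (∀ i, c i < 2 ^ k) ∧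
    P - ∑ i ∈ Finset.range (2 ^ k), T (i : ℕ) * (c i : A) ∈ J k := by
  have h0 : (0 : ℤ) < 2 ^ k := by positivity
  obtain ⟨c, hc⟩ : ∃ c : ℕ → ℤ, P - ∑ i ∈ Finset.range (2 ^ k), T (i : ℕ) * (c i : A) ∈ J k := by
    induction P using LaurentPolynomial.induction_on' with
    | add p q hp hq =>
      obtain ⟨c, hc⟩ := hp
      obtain ⟨d, hd⟩ := hq
      refine ⟨c + d, ?_⟩
      convert add_mem hc hd using 1
      simp only [Pi.add_apply, Int.cast_add, mul_add, Finset.sum_add_distrib]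
      ring
    | C_mul_T n a =>
      obtain ⟨i, h1, h2⟩ := J_T' k n
      refine ⟨Pi.single i a, ?_⟩
      rw [Finset.sum_eq_single i (fun j _ h => by simp [h]) (by simp [h1]), Pi.single_eq_same,
        eq_intCast, mul_comm, ← sub_mul]
      exact (J k).mul_mem_right _ h2
  refine ⟨fun i => (c i % 2 ^ k).toNat, fun i => ?_, ?_⟩
  · have := Int.emod_lt_of_pos (c i) h0
    zify
    rwa [Int.toNat_of_nonneg (Int.emod_nonneg _ h0.ne')]
  · have : ∑ i ∈ Finset.range (2 ^ k), (T (i : ℕ) * (c i : A) -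
        T (i : ℕ) * (((c i % 2 ^ k).toNat : ℕ) : A)) ∈ J k := sum_mem fun i _ => by
      rw [← mul_sub, ← Int.cast_natCast (R := A), Int.toNat_of_nonneg (Int.emod_nonneg _ h0.ne'),
        Int.emod_def]
      push_cast
      rw [sub_sub_cancel]
      exact (J k).mul_mem_left _ ((J k).mul_mem_right _ (Ideal.subset_span (Or.inl rfl)))
    convert add_mem hc this using 1
    rw [Finset.sum_sub_distrib]
    ring

theorem J_fin (k : ℕ) : Finite (A ⧸ J k) := by
  refine Finite.of_surjective (fun c : Fin (2 ^ k) → Fin (2 ^ k) =>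
    Ideal.Quotient.mk (J k) (∑ i : Fin (2 ^ k), T ((i : ℕ) : ℤ) * ((c i : ℕ) : A))) fun x => ?_
  obtain ⟨P, rfl⟩ := Ideal.Quotient.mk_surjective x
  obtain ⟨c, a, b⟩ := J_red k P
  refine ⟨fun i => ⟨c i, a i⟩, (Ideal.Quotient.eq.2 ?_).symm⟩
  rwa [Finset.sum_range] at b

theorem J_index (k : ℕ) : 2 ^ 2 ^ (k + 1) ≤ (N (J (k + 1))).index := by
  haveI := J_fin (k + 1)
  have hm : (X ^ 2 ^ (k + 1) - 1 : (ZMod 2)[X]).Monic := monic_X_pow_sub_C 1 (by positivity)
  let R := AdjoinRoot (X ^ 2 ^ (k + 1) - 1 : (ZMod 2)[X])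
  have h1 : (AdjoinRoot.root _ : R) ^ 2 ^ (k + 1) = 1 := by
    have := AdjoinRoot.mk_self (f := (X ^ 2 ^ (k + 1) - 1 : (ZMod 2)[X]))
    rwa [map_sub, map_pow, map_one, AdjoinRoot.mk_X, sub_eq_zero] at this
  let x : Rˣ := Units.ofPowEqOne _ _ h1 (by positivity)
  have h2 : Function.Surjective (LaurentPolynomial.eval₂ (Int.castRingHom R) x) := by
    intro r
    obtain ⟨p, rfl⟩ := AdjoinRoot.mk_surjective r
    obtain ⟨q, rfl⟩ := Polynomial.map_surjective (Int.castRingHom _) ZMod.intCast_surjective p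
    refine ⟨toLaurent q, ?_⟩
    rw [eval₂_toLaurent, ← AdjoinRoot.aeval_eq, aeval_def, eval₂_map]
    congr 1
  have h3 : Nat.card R = 2 ^ 2 ^ (k + 1) := by
    haveI := (AdjoinRoot.powerBasis' hm).finite
    haveI := Module.Free.of_basis (AdjoinRoot.powerBasis' hm).basis
    rw [Module.natCard_eq_pow_finrank (K := ZMod 2), Nat.card_zmod,
      (AdjoinRoot.powerBasis' hm).finrank, AdjoinRoot.powerBasis'_dim, ← C_1, natDegree_X_pow_sub_C]
  choose σ hσ using h2
  haveI : (N (J (k + 1))).FiniteIndex := N_eq _ ▸ Subgroup.finiteIndex_ker _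
  rw [← h3]
  refine Nat.card_le_card_of_injective (fun r => (el 0 (σ r) : G ⧸ N (J (k + 1)))) fun r s h => ?_
  have := QuotientGroup.eq.1 h
  rw [el_inv, el_mul, el_mem] at this
  have := J_ev x (k + 1) (by
    rw [pow_succ, show (2 : R) = algebraMap (ZMod 2) R 2 from (map_ofNat _ 2).symm,
      show (2 : ZMod 2) = 0 from rfl, map_zero, mul_zero]) (Units.ext (by simpa [x] using h1)) this.2
  simpa [hσ, add_neg_eq_zero, eq_comm] using this

def Wd (S : Finset G) (r : ℕ) (g : G) : Prop :=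
  ∃ l : List G, (∀ x ∈ l, x ∈ S ∨ x⁻¹ ∈ S) ∧ l.length ≤ r ∧ l.prod = g

theorem Wd.mul {S : Finset G} {r s : ℕ} {g h : G} (a : Wd S r g) (b : Wd S s h) :
    Wd S (r + s) (g * h) := by
  obtain ⟨l, a1, a2, rfl⟩ := a
  obtain ⟨m, b1, b2, rfl⟩ := b
  exact ⟨l ++ m, fun x hx => (List.mem_append.1 hx).elim (a1 x) (b1 x),
    by simpa using add_le_add a2 b2, List.prod_append⟩

theorem Wd.inv {S : Finset G} {r : ℕ} {g : G} (a : Wd S r g) : Wd S r g⁻¹ := by
  obtain ⟨l, a1, a2, rfl⟩ := a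
  refine ⟨(l.map fun x => x⁻¹).reverse, fun x hx => ?_, by simpa using a2,
    (List.prod_inv_reverse l).symm⟩
  obtain ⟨y, hy, rfl⟩ := List.mem_map.1 (List.mem_reverse.1 hx)
  simpa [or_comm] using a1 y hy

theorem Wd.mono {S : Finset G} {r s : ℕ} {g : G} (a : Wd S r g) (h : r ≤ s) : Wd S s g :=
  let ⟨l, a1, a2, a3⟩ := a
  ⟨l, a1, a2.trans h, a3⟩

theorem q2 : Cong (fun k => J (k + 1)) ∧ ∀ S : Finset G, Subgroup.closure (S : Set G) = ⊤ →
    ∀ α : ℝ, 0 < α → ¬ D S (fun k => N (J (k + 1))) α := by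
  refine ⟨⟨⟨antitone_nat_of_succ_le fun k => Ideal.span_le.2 ?_, fun k => J_fin _⟩,
    bot_of fun P hP => lift0 fun p n hp => ?_⟩, ?_⟩
  · rintro _ (rfl | rfl)
    · rw [pow_succ]
      exact (J _).mul_mem_right _ (Ideal.subset_span (Or.inl rfl))
    · rw [pow_succ, mul_two, T_add, mul_self_sub_one]
      exact (J _).mul_mem_left _ (Ideal.subset_span (Or.inr rfl))
  · refine p.eq_zero_of_infinite_isRoot ((Set.infinite_range_of_injective
      (f := fun u : ℕ => ((2 * u + 1 : ℕ) : ℤ)) fun a b h => by simpa using h).mono ?_)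
    rintro _ ⟨u, rfl⟩
    refine Int.eq_zero_of_dvd_of_natAbs_lt_natAbs (d := (2 ^ ((p.eval ((2 * u + 1 : ℕ) : ℤ)).natAbs
      + 1) : ℕ)) ?_ (by simpa using (Nat.lt_succ_self _).trans Nat.lt_two_pow_self)
    generalize (p.eval ((2 * u + 1 : ℕ) : ℤ)).natAbs = k
    have := J_ev (ZMod.unitOfCoprime (2 * u + 1) (Nat.Coprime.pow_right (k + 1)
      (Odd.coprime_two_right ⟨u, rfl⟩)))
      (k + 1) (by exact_mod_cast ZMod.natCast_self (2 ^ (k + 1))) (by
        rw [← orderOf_dvd_iff_pow_eq_one]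
        refine orderOf_dvd_card.trans ?_
        rw [ZMod.card_units_eq_totient, Nat.totient_prime_pow_succ Nat.prime_two]
        simpa using pow_dvd_pow 2 (Nat.le_succ k)) ((J _).mul_mem_right (T n) (hP k))
    rw [← hp, eval₂_toLaurent, ZMod.coe_unitOfCoprime, ← Int.cast_natCast] at this
    rw [← ZMod.intCast_zmod_eq_zero_iff_dvd, ← this]
    exact (eval₂_at_apply (Int.castRingHom (ZMod (2 ^ (k + 1)))) _).symm
  rintro S hS α hα ⟨K, hK, h⟩
  have hw : ∀ g, ∃ r, Wd S r g := fun g => by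
    have hg : g ∈ Subgroup.closure (S : Set G) := hS ▸ trivial
    induction hg using Subgroup.closure_induction with
    | mem x hx => exact ⟨1, [x], by simpa using Or.inl hx, le_rfl, by simp⟩
    | one => exact ⟨0, [], by simp, le_rfl, rfl⟩
    | mul x y _ _ a b => exact ⟨_, a.choose_spec.mul b.choose_spec⟩
    | inv x _ a => exact ⟨_, a.choose_spec.inv⟩
  obtain ⟨r, hr⟩ := hw (el 1 0)
  obtain ⟨s, hs⟩ := hw (el 0 1)
  have w1 : ∀ i : ℕ, Wd S (i * r) (el i 0) := fun i => by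
    induction i with
    | zero => exact ⟨[], by simp, by simp, el_one.symm⟩
    | succ i ih => simpa [el_mul, add_mul] using ih.mul hr
  have w2 : ∀ i : ℕ, Wd S (i * s) (el 0 i) := fun i => by
    induction i with
    | zero => exact ⟨[], by simp, by simp, by simpa using el_one.symm⟩
    | succ i ih => simpa [el_mul, add_mul, add_comm] using ih.mul hs
  have w3 : ∀ (M : ℕ) (c : ℕ → ℕ), (∀ i, c i < M) → ∀ m ≤ M,
      Wd S (m * (M * (2 * r + s))) (el 0 (∑ i ∈ Finset.range m, T (i : ℕ) * (c i : A))) := by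
    intro M c hc m
    induction m with
    | zero => exact fun _ => ⟨[], by simp, by simp, by simpa using el_one.symm⟩
    | succ m ih =>
      intro hm
      have := (((w1 m).mul (w2 (c m))).mul (w1 m).inv).mul (ih (by omega))
      simp only [el_inv, el_mul, mul_zero, neg_zero, add_zero, zero_add, add_neg_cancel, T_zero,
        one_mul] at this
      rw [Finset.sum_range_succ]
      refine this.mono ?_
      nlinarith [Nat.mul_le_mul_right r (Nat.le_of_succ_le hm), Nat.mul_le_mul_right s (hc m).le]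
  have t1 := (tendsto_pow_const_div_const_pow_of_one_lt 2
    (Real.one_lt_rpow one_lt_two hα)).comp ((tendsto_pow_atTop_atTop_of_one_lt one_lt_two).comp
      (tendsto_add_atTop_nat 1))
  obtain ⟨k, hk⟩ := (t1.eventually (gt_mem_nhds (show 0 < K / (3 * r + s + 1) by positivity))).exists
  obtain ⟨g, hg⟩ := h k
  obtain ⟨n, P, rfl⟩ := el_surj g
  obtain ⟨c, c1, c2⟩ := J_red (k + 1) P
  obtain ⟨i, i1, i2⟩ := J_T (k + 1) n
  obtain ⟨l, l1, l2, l3⟩ := (w3 _ c c1 _ le_rfl).mul (w1 i)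
  have := hg l l1 (by
    rw [l3, el_mul, el_inv, el_mul, el_mem]
    simp only [zero_add, mul_zero, ← sub_eq_add_neg, ← mul_sub, neg_add_eq_sub]
    exact ⟨i2, (J _).mul_mem_left _ c2⟩)
  simp only [Function.comp_apply] at hk
  have h1 := J_index k
  generalize 2 ^ (k + 1) = m at *
  have h2 : ((2 : ℝ) ^ α) ^ m ≤ ((N (J (k + 1))).index : ℝ) ^ α := by
    rw [← Real.rpow_natCast, ← Real.rpow_mul zero_le_two, mul_comm, Real.rpow_mul zero_le_two,
      Real.rpow_natCast]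
    exact Real.rpow_le_rpow (by positivity) (by exact_mod_cast h1) hα.le
  have h3 : (l.length : ℝ) ≤ m ^ 2 * (3 * r + s + 1) := by
    have : l.length ≤ m ^ 2 * (3 * r + s + 1) := by
      nlinarith [Nat.mul_le_mul_right r (i1.le.trans (Nat.le_mul_self m))]
    exact_mod_cast this
  rw [div_lt_div_iff₀ (by positivity) (by positivity)] at hk
  nlinarith [mul_le_mul_of_nonneg_left h2 hK.le]

theorem result : (∃ I, Cong I ∧ AllD (Box I) (1 / 2)) ∧ ∃ I, Cong I ∧ NoD (Box I) :=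
  ⟨let ⟨I, a, b⟩ := q1; ⟨I, a, fun S _ => b S⟩, _, q2.1, fun S h α a _ => q2.2 S h α a⟩

end Pool.Agent.Results.MP_625351_al.Main
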